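import Pool.Agent.H1.FB.Final

/-!
A system of exponentials with infinite defect which is not contained in any strong M-basis.
-/

set_option autoImplicit false

namespace Pool.Agent.Results.MP_fb65e7_an.NotComplementable

open Pool.Agent.H1.FB

/-- **Exponential systems of infinite defect need not be complementable to strong M-bases.**
There is a set `Λ` of real numbers such that `E(Λ)` has infinite defect in `L²(-π, π)` while
`E(Λ ∪ M)` is not a strong M-basis of `L²(-π, π)`, whatever the set `M` disjoint from `Λ`.
In fact no strong M-basis of `L²(-π, π)`, of exponentials or of other vectors, contains `E(Λ)`. -/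
theorem result : ∃ Λ : Set ℂ, (∀ l ∈ Λ, l.im = 0) ∧ InfiniteDefect Λ ∧
    (∀ M : Set ℂ, Disjoint Λ M → ¬ IsStrongMBasis (fun l : ↥(Λ ∪ M) => e (l : ℂ))) ∧
    (∀ (ι : Type) (x : ι → H), (∀ l ∈ Λ, e l ∈ Set.range x) → ¬ IsStrongMBasis x) :=
  main

end Pool.Agent.Results.MP_fb65e7_an.NotComplementable
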